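import Mathlib

/-!
# 1x1 Rush Hour: configurations and moves
-/

namespace Pool.Agent.H86.RH

/-- A configuration of 1x1 Rush Hour on the `m x n` board: every cell is empty (`none`) or holds a
horizontal block (`some true`) or a vertical block (`some false`). -/
abbrev Config (m n : ℕ) := Fin m × Fin n → Option Bool

/-- `Slide b p q`: the cells `p` and `q` are neighbours in the direction in which a block with
label `b` moves (`true`: same row, `false`: same column). -/
def Slide {m n : ℕ} (b : Bool) (p q : Fin m × Fin n) : Prop :=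
  if b = true then p.1 = q.1 ∧ ((p.2 : ℕ) + 1 = q.2 ∨ (q.2 : ℕ) + 1 = p.2)
  else p.2 = q.2 ∧ ((p.1 : ℕ) + 1 = q.1 ∨ (q.1 : ℕ) + 1 = p.1)

/-- One unit move: a block slides into an adjacent empty cell. -/
def Step {m n : ℕ} (c c' : Config m n) : Prop :=
  ∃ (b : Bool) (p q : Fin m × Fin n), Slide b p q ∧ c p = some b ∧ c q = none ∧
    c' = Function.update (Function.update c p none) q (some b)

/-- `Reach c c'`: some finite sequence of moves leads from `c` to `c'`. -/
def Reach {m n : ℕ} (c c' : Config m n) : Prop := Relation.ReflTransGen Step c c'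

/-- `ReachIn k c c'`: exactly `k` moves lead from `c` to `c'`. -/
inductive ReachIn {m n : ℕ} : ℕ → Config m n → Config m n → Prop
  | zero (c : Config m n) : ReachIn 0 c c
  | succ {k : ℕ} {c c' c'' : Config m n} : ReachIn k c c' → Step c' c'' → ReachIn (k + 1) c c''

variable {m n : ℕ}

theorem Slide.symm {b : Bool} {p q : Fin m × Fin n} (h : Slide b p q) : Slide b q p := by
  unfold Slide at *
  split_ifs at * with hb
  · exact ⟨h.1.symm, h.2.symm⟩
  · exact ⟨h.1.symm, h.2.symm⟩

theorem Slide.ne {b : Bool} {p q : Fin m × Fin n} (h : Slide b p q) : p ≠ q := by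
  rintro rfl
  unfold Slide at h
  split_ifs at h with hb
  · rcases h.2 with h | h <;> omega
  · rcases h.2 with h | h <;> omega

theorem Step.symm {c c' : Config m n} (h : Step c c') : Step c' c := by
  obtain ⟨b, p, q, hs, hp, hq, rfl⟩ := h
  have hne := hs.ne
  refine ⟨b, q, p, hs.symm, by simp, ?_, ?_⟩
  · rw [Function.update_of_ne hne]; simp
  · funext z
    by_cases hz : z = p
    · subst hz; simp [hp]
    · rw [Function.update_of_ne hz]
      by_cases hz' : z = q
      · subst hz'; simp [hq]
      · rw [Function.update_of_ne hz', Function.update_of_ne hz', Function.update_of_ne hz]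

theorem ReachIn.reach {k : ℕ} {c c' : Config m n} (h : ReachIn k c c') : Reach c c' := by
  induction h with
  | zero => exact Relation.ReflTransGen.refl
  | succ _ hs ih => exact Relation.ReflTransGen.tail ih hs

/-- The cells that can be emptied, as a closure of the empty cells. -/
inductive InK (c : Config m n) : Fin m × Fin n → Prop
  | hole {x : Fin m × Fin n} : c x = none → InK c x
  | step {b : Bool} {y z : Fin m × Fin n} : InK c y → c z = some b → Slide b z y → InK c z

theorem InK.of_step {c c' : Config m n} (h : Step c c') {z : Fin m × Fin n} (hz : InK c' z) :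
    InK c z := by
  obtain ⟨b, p, q, hs, hp, hq, rfl⟩ := h
  have hne := hs.ne
  have hqK : InK c q := InK.hole hq
  have hpK : InK c p := InK.step hqK hp hs
  induction hz with
  | @hole x hx =>
    by_cases h1 : x = q
    · exact h1 ▸ hqK
    · by_cases h2 : x = p
      · exact h2 ▸ hpK
      · rw [Function.update_of_ne h1, Function.update_of_ne h2] at hx
        exact InK.hole hx
  | @step b' y z _ hz' hsl ih =>
    by_cases h1 : z = q
    · exact h1 ▸ hqK
    · by_cases h2 : z = p
      · exact h2 ▸ hpK
      · rw [Function.update_of_ne h1, Function.update_of_ne h2] at hz'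
        exact InK.step ih hz' hsl

theorem InK.iff_step {c c' : Config m n} (h : Step c c') (z : Fin m × Fin n) :
    InK c' z ↔ InK c z :=
  ⟨InK.of_step h, InK.of_step h.symm⟩

theorem InK.iff_reach {c c' : Config m n} (h : Reach c c') (z : Fin m × Fin n) :
    InK c' z ↔ InK c z := by
  induction h with
  | refl => rfl
  | tail _ hs ih => rw [InK.iff_step hs, ih]

theorem eq_of_notK_step {c c' : Config m n} (h : Step c c') {z : Fin m × Fin n}
    (hz : ¬ InK c z) : c' z = c z := by
  obtain ⟨b, p, q, hs, hp, hq, rfl⟩ := h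
  have hqK : InK c q := InK.hole hq
  have hpK : InK c p := InK.step hqK hp hs
  have h1 : z ≠ q := fun h => hz (h ▸ hqK)
  have h2 : z ≠ p := fun h => hz (h ▸ hpK)
  rw [Function.update_of_ne h1, Function.update_of_ne h2]

theorem eq_of_notK {c c' : Config m n} (h : Reach c c') {z : Fin m × Fin n}
    (hz : ¬ InK c z) : c' z = c z := by
  induction h with
  | refl => rfl
  | tail h1 hs ih =>
    rw [eq_of_notK_step hs (fun h => hz ((InK.iff_reach h1 z).1 h)), ih]

theorem ne_none_of_notK {c : Config m n} {z : Fin m × Fin n} (hz : ¬ InK c z) : c z ≠ none :=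
  fun h => hz (InK.hole h)

/-- Levels of the closure. -/
def Lev (c : Config m n) : ℕ → Fin m × Fin n → Prop
  | 0, x => c x = none
  | k + 1, z => ∃ y, Lev c k y ∧ ∃ b, c z = some b ∧ Slide b z y

theorem Lev.inK {c : Config m n} : ∀ {k : ℕ} {z : Fin m × Fin n}, Lev c k z → InK c z
  | 0, _, h => InK.hole h
  | _ + 1, _, ⟨_, hy, _, hz, hs⟩ => InK.step hy.inK hz hs

theorem InK.lev {c : Config m n} {z : Fin m × Fin n} (h : InK c z) : ∃ k, Lev c k z := by
  induction h with
  | hole h => exact ⟨0, h⟩
  | step _ hz hs ih =>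
    obtain ⟨k, hk⟩ := ih
    exact ⟨k + 1, _, hk, _, hz, hs⟩

theorem emptying {c : Config m n} : ∀ (k : ℕ) (z : Fin m × Fin n), Lev c k z →
    (∀ j < k, ¬ Lev c j z) → ∃ c', ReachIn k c c' ∧ c' z = none ∧
      ∀ w, (∀ j < k, ¬ Lev c j w) → w ≠ z → c' w = c w := by
  intro k
  induction k with
  | zero => exact fun z hz _ => ⟨c, ReachIn.zero c, hz, fun _ _ _ => rfl⟩
  | succ k ih =>
    rintro z ⟨y, hy, b, hz, hs⟩ hmin
    have hymin : ∀ j < k, ¬ Lev c j y := fun j hj h =>
      hmin (j + 1) (by omega) ⟨y, h, b, hz, hs⟩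
    obtain ⟨c', h1, h2, h3⟩ := ih y hy hymin
    have hne := hs.ne
    have hz' : c' z = some b := by
      rw [h3 z (fun j hj => hmin j (by omega)) hne, hz]
    refine ⟨_, ReachIn.succ h1 ⟨b, z, y, hs, hz', h2, rfl⟩, ?_, ?_⟩
    · rw [Function.update_of_ne hne]; simp
    · intro w hw hwz
      have hwy : w ≠ y := fun h => hw k (by omega) (h ▸ hy)
      rw [Function.update_of_ne hwy, Function.update_of_ne hwz]
      exact h3 w (fun j hj => hw j (by omega)) hwy

theorem emptiable_iff {c : Config m n} {x : Fin m × Fin n} :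
    (∃ c', Reach c c' ∧ c' x = none) ↔ InK c x := by
  constructor
  · rintro ⟨c', h, hx⟩
    exact (InK.iff_reach h x).1 (InK.hole hx)
  · intro h
    classical
    have hex := h.lev
    obtain ⟨c', h1, h2, _⟩ := emptying (Nat.find hex) x (Nat.find_spec hex)
      (fun j hj => Nat.find_min hex hj)
    exact ⟨c', h1.reach, h2⟩

/-- Two diagonal cells of a 2x2 square in the closure force the other two. -/
theorem corner {c : Config m n} {z y y' : Fin m × Fin n} (hy : InK c y) (hy' : InK c y')
    (h : Slide true z y) (h' : Slide false z y') : InK c z := by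
  rcases hz : c z with _ | b
  · exact InK.hole hz
  · cases b
    · exact InK.step hy' hz h'
    · exact InK.step hy hz h

end Pool.Agent.H86.RH
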