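import Mathlib

/-!
# Plane sets without reflex corners are unions of separated rectangles
-/

namespace Pool.Agent.H86.RH

/-- The end of the run of `P` that starts at `j0`. -/
theorem run_right {P : ℤ → Prop} {j0 N : ℤ} (h0 : P j0) (hN : ∀ j, P j → j < N) :
    ∃ v, j0 ≤ v ∧ (∀ t, j0 ≤ t → t ≤ v → P t) ∧ ¬ P (v + 1) := by
  classical
  have hex : ∃ k : ℕ, ¬ P (j0 + k) := by
    refine ⟨(N - j0).toNat, fun h => ?_⟩
    have := hN _ h
    have h1 := hN _ h0
    omega
  have hk := Nat.find_spec hex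
  have hmin : ∀ i < Nat.find hex, P (j0 + i) := fun i hi => by
    have := Nat.find_min hex hi
    simpa using this
  set k := Nat.find hex with hkdef
  have hkpos : k ≠ 0 := by
    intro h
    rw [h] at hk
    exact hk (by simpa using h0)
  refine ⟨j0 + k - 1, by omega, fun t ht1 ht2 => ?_, by simpa using hk⟩
  have := hmin (t - j0).toNat (by omega)
  rwa [show j0 + ((t - j0).toNat : ℤ) = t by omega] at this

theorem run_left {P : ℤ → Prop} {j0 N : ℤ} (h0 : P j0) (hN : ∀ j, P j → N < j) :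
    ∃ u, u ≤ j0 ∧ (∀ t, u ≤ t → t ≤ j0 → P t) ∧ ¬ P (u - 1) := by
  obtain ⟨v, h1, h2, h3⟩ := run_right (P := fun t => P (-t)) (j0 := -j0) (N := -N)
    (by simpa using h0) (fun j hj => by have := hN _ hj; omega)
  refine ⟨-v, by omega, fun t ht1 ht2 => ?_, ?_⟩
  · simpa using h2 (-t) (by omega) (by omega)
  · rwa [show -v - 1 = -(v + 1) by ring]

/-- The set of rows in which the run is exactly `[u, v]`. -/
def Exact (S : ℤ → ℤ → Prop) (u v i : ℤ) : Prop :=
  (∀ t, u ≤ t → t ≤ v → S i t) ∧ ¬ S i (u - 1) ∧ ¬ S i (v + 1)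

theorem next_row {S : ℤ → ℤ → Prop} (D1 : ∀ i j, S i j → S (i + 1) (j + 1) → S i (j + 1) ∧ S (i + 1) j)
    (D2 : ∀ i j, S i (j + 1) → S (i + 1) j → S i j ∧ S (i + 1) (j + 1)) {u v i : ℤ} (huv : u ≤ v)
    (h : Exact S u v i) :
    Exact S u v (i + 1) ∨ ∀ t, u - 1 ≤ t → t ≤ v + 1 → ¬ S (i + 1) t := by
  obtain ⟨h1, h2, h3⟩ := h
  have hr : ¬ S (i + 1) (v + 1) := fun h => h3 (D1 i v (h1 v huv le_rfl) h).1
  have hl : ¬ S (i + 1) (u - 1) := fun h => by
    have := D2 i (u - 1) (by simpa using h1 u le_rfl huv) h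
    exact h2 this.1
  by_cases hex : ∃ t0, u ≤ t0 ∧ t0 ≤ v ∧ S (i + 1) t0
  · obtain ⟨t0, a1, a2, a3⟩ := hex
    left
    refine ⟨fun t ht1 ht2 => ?_, hl, hr⟩
    have up : ∀ k : ℕ, t0 + k ≤ v → S (i + 1) (t0 + k) := by
      intro k
      induction k with
      | zero => intro _; simpa using a3
      | succ k ih =>
        intro hk
        push_cast at hk ⊢
        have hk' := ih (by omega)
        have := (D2 i (t0 + k) (h1 _ (by omega) (by omega)) hk').2
        rwa [← add_assoc]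
    have dn : ∀ k : ℕ, u ≤ t0 - k → S (i + 1) (t0 - k) := by
      intro k
      induction k with
      | zero => intro _; simpa using a3
      | succ k ih =>
        intro hk
        push_cast at hk ⊢
        have hk' := ih (by omega)
        have := (D1 i (t0 - (k + 1)) (h1 _ (by omega) (by omega)) (by
          rwa [show t0 - ((k : ℤ) + 1) + 1 = t0 - k by ring])).2
        exact this
    rcases le_total t0 t with h | h
    · have := up (t - t0).toNat (by omega)
      rwa [show t0 + ((t - t0).toNat : ℤ) = t by omega] at this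
    · have := dn (t0 - t).toNat (by omega)
      rwa [show t0 - ((t0 - t).toNat : ℤ) = t by omega] at this
  · right
    push Not at hex
    intro t ht1 ht2 hS
    rcases eq_or_lt_of_le ht1 with h | h
    · exact hl (h ▸ hS)
    · rcases eq_or_lt_of_le ht2 with h' | h'
      · exact hr (h' ▸ hS)
      · exact hex t (by omega) (by omega) hS

theorem prev_row {S : ℤ → ℤ → Prop} (D1 : ∀ i j, S i j → S (i + 1) (j + 1) → S i (j + 1) ∧ S (i + 1) j)
    (D2 : ∀ i j, S i (j + 1) → S (i + 1) j → S i j ∧ S (i + 1) (j + 1)) {u v i : ℤ} (huv : u ≤ v)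
    (h : Exact S u v i) :
    Exact S u v (i - 1) ∨ ∀ t, u - 1 ≤ t → t ≤ v + 1 → ¬ S (i - 1) t := by
  have key := next_row (S := fun i j => S (-i) j) (u := u) (v := v) (i := -i)
    (fun i j a b => by
      have := D2 (-(i + 1)) j (by simpa using b) (by
        rwa [show -(i + 1) + 1 = -i by ring])
      rw [show -(i + 1) + 1 = -i by ring] at this
      exact ⟨this.2, this.1⟩)
    (fun i j a b => by
      have := D1 (-(i + 1)) j b (by
        rwa [show -(i + 1) + 1 = -i by ring])
      rw [show -(i + 1) + 1 = -i by ring] at this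
      exact ⟨this.2, this.1⟩) huv (by simpa [Exact] using h)
  rcases key with h | h
  · left
    have e : -(-i + 1) = i - 1 := by ring
    simpa [Exact, e] using h
  · right
    intro t h1 h2
    have := h t h1 h2
    rwa [show -(-i + 1) = i - 1 by ring] at this

/-- A bounded plane set without reflex corners: every point lies in a rectangle of the set, and
the ring of cells around it (corners included) is disjoint from the set. -/
theorem rectangle {S : ℤ → ℤ → Prop} {M N : ℤ} (hb : ∀ i j, S i j → 0 ≤ i ∧ i < M ∧ 0 ≤ j ∧ j < N)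
    (D1 : ∀ i j, S i j → S (i + 1) (j + 1) → S i (j + 1) ∧ S (i + 1) j)
    (D2 : ∀ i j, S i (j + 1) → S (i + 1) j → S i j ∧ S (i + 1) (j + 1)) {i0 j0 : ℤ}
    (h0 : S i0 j0) :
    ∃ a b u v, a ≤ i0 ∧ i0 ≤ b ∧ u ≤ j0 ∧ j0 ≤ v ∧
      (∀ i j, a ≤ i → i ≤ b → u ≤ j → j ≤ v → S i j) ∧
      (∀ i j, a - 1 ≤ i → i ≤ b + 1 → u - 1 ≤ j → j ≤ v + 1 →
        (¬ (a ≤ i ∧ i ≤ b ∧ u ≤ j ∧ j ≤ v)) → ¬ S i j) := by
  obtain ⟨v, v1, v2, v3⟩ := run_right (P := S i0) (N := N) h0 (fun j hj => (hb _ _ hj).2.2.2)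
  obtain ⟨u, u1, u2, u3⟩ := run_left (P := S i0) (N := -1) h0
    (fun j hj => by have := (hb _ _ hj).2.2.1; omega)
  have huv : u ≤ v := by omega
  have e0 : Exact S u v i0 := ⟨fun t h1 h2 => by
    rcases le_total j0 t with h | h
    · exact v2 t h h2
    · exact u2 t h1 h, u3, v3⟩
  obtain ⟨b, b1, b2, b3⟩ := run_right (P := Exact S u v) (N := M) e0
    (fun i hi => (hb i u (hi.1 u le_rfl huv)).2.1)
  obtain ⟨a, a1, a2, a3⟩ := run_left (P := Exact S u v) (N := -1) e0
    (fun i hi => by have := (hb i u (hi.1 u le_rfl huv)).1; omega)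
  have hex : ∀ i, a ≤ i → i ≤ b → Exact S u v i := fun i h1 h2 => by
    rcases le_total i0 i with h | h
    · exact b2 i h h2
    · exact a2 i h1 h
  have hB : ∀ t, u - 1 ≤ t → t ≤ v + 1 → ¬ S (b + 1) t := by
    rcases next_row D1 D2 huv (hex b (by omega) le_rfl) with h | h
    · exact absurd h b3
    · exact h
  have hA : ∀ t, u - 1 ≤ t → t ≤ v + 1 → ¬ S (a - 1) t := by
    rcases prev_row D1 D2 huv (hex a le_rfl (by omega)) with h | h
    · exact absurd h a3
    · exact h
  refine ⟨a, b, u, v, a1, b1, u1, v1, fun i j h1 h2 h3 h4 => (hex i h1 h2).1 j h3 h4, ?_⟩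
  intro i j h1 h2 h3 h4 hn hS
  rcases eq_or_lt_of_le h1 with h | h
  · exact hA j h3 h4 (h ▸ hS)
  · rcases eq_or_lt_of_le h2 with h' | h'
    · exact hB j h3 h4 (h' ▸ hS)
    · have hi := hex i (by omega) (by omega)
      rcases eq_or_lt_of_le h3 with h5 | h5
      · exact hi.2.1 (h5 ▸ hS)
      · rcases eq_or_lt_of_le h4 with h6 | h6
        · exact hi.2.2 (h6 ▸ hS)
        · exact hn ⟨by omega, by omega, by omega, by omega⟩

end Pool.Agent.H86.RH
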