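import Pool.Agent.H86.RH.Basic

/-!
# The parity invariant of one-hole boards
-/

namespace Pool.Agent.H86.RH

open Finset

variable {m n : ℕ}

/-- Indicator of the horizontal blocks. -/
def hh (c : Config m n) (x : Fin m × Fin n) : ZMod 2 := if c x = some true then 1 else 0

/-- Indicator of the vertical blocks. -/
def vv (c : Config m n) (x : Fin m × Fin n) : ZMod 2 := if c x = some false then 1 else 0

/-- `y` lies strictly below and strictly to the left of `x`. -/
def SW (x y : Fin m × Fin n) : Prop := x.1 < y.1 ∧ y.2 < x.2

instance (x y : Fin m × Fin n) : Decidable (SW x y) := by unfold SW; infer_instance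

/-- The bilinear form of inversions. -/
def B (f g : Fin m × Fin n → ZMod 2) : ZMod 2 := ∑ x, ∑ y, if SW x y then f x * g y else 0

theorem B_add_left (f f' g : Fin m × Fin n → ZMod 2) : B (f + f') g = B f g + B f' g := by
  unfold B
  rw [← Finset.sum_add_distrib]
  refine Finset.sum_congr rfl fun x _ => ?_
  rw [← Finset.sum_add_distrib]
  refine Finset.sum_congr rfl fun y _ => ?_
  split_ifs <;> simp [add_mul]

theorem B_add_right (f g g' : Fin m × Fin n → ZMod 2) : B f (g + g') = B f g + B f g' := by
  unfold B
  rw [← Finset.sum_add_distrib]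
  refine Finset.sum_congr rfl fun x _ => ?_
  rw [← Finset.sum_add_distrib]
  refine Finset.sum_congr rfl fun y _ => ?_
  split_ifs <;> simp [mul_add]

theorem B_single_left (p : Fin m × Fin n) (g : Fin m × Fin n → ZMod 2) :
    B (Pi.single p 1) g = ∑ y, if SW p y then g y else 0 := by
  unfold B
  rw [Finset.sum_eq_single p]
  · refine Finset.sum_congr rfl fun y _ => ?_
    simp
  · intro x _ hx
    refine Finset.sum_eq_zero fun y _ => ?_
    rw [Pi.single_eq_of_ne hx]
    simp
  · intro h
    exact absurd (Finset.mem_univ _) h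

theorem B_single_right (p : Fin m × Fin n) (f : Fin m × Fin n → ZMod 2) :
    B f (Pi.single p 1) = ∑ x, if SW x p then f x else 0 := by
  unfold B
  refine Finset.sum_congr rfl fun x _ => ?_
  rw [Finset.sum_eq_single p]
  · simp
  · intro y _ hy
    rw [Pi.single_eq_of_ne hy]
    simp
  · intro h
    exact absurd (Finset.mem_univ _) h

/-- Number of horizontal blocks in the column of `x` below `x`. -/
def below (c : Config m n) (x : Fin m × Fin n) : ZMod 2 :=
  ∑ y, if y.2 = x.2 ∧ x.1 < y.1 then hh c y else 0

/-- Number of vertical blocks in a column. -/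
def vcol (c : Config m n) (t : Fin n) : ZMod 2 := ∑ i, vv c (i, t)

/-- The potential of the column of the hole. -/
def gcol (c : Config m n) (j : Fin n) : ZMod 2 := ∑ t, if t ≤ j then ((m : ZMod 2) - 1 - vcol c t) else 0

/-- The invariant. -/
def J (c : Config m n) (x : Fin m × Fin n) : ZMod 2 := B (hh c) (hh c) + below c x + gcol c x.2

/-- `x` is the only empty cell of `c`. -/
def Hole (c : Config m n) (x : Fin m × Fin n) : Prop := ∀ y, c y = none ↔ y = x

theorem hole_step {c c' : Config m n} {x : Fin m × Fin n} (hx : Hole c x) (h : Step c c') :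
    ∃ x', Hole c' x' := by
  obtain ⟨b, p, q, hs, hp, hq, rfl⟩ := h
  refine ⟨p, fun y => ?_⟩
  have hqx : q = x := (hx q).1 hq
  by_cases h1 : y = q
  · subst h1
    simp [hs.ne.symm]
  · rw [Function.update_of_ne h1]
    by_cases h2 : y = p
    · subst h2; simp
    · rw [Function.update_of_ne h2]
      rw [hx y]
      constructor
      · intro h; exact absurd (h.trans hqx.symm) h1
      · intro h; exact absurd h h2

theorem vcol_step {c c' : Config m n} (h : Step c c') (t : Fin n) : vcol c' t = vcol c t := by
  obtain ⟨b, p, q, hs, hp, hq, rfl⟩ := h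
  have hne := hs.ne
  unfold vcol
  cases b with
  | true =>
    refine Finset.sum_congr rfl fun i _ => ?_
    unfold vv
    by_cases h1 : (i, t) = q
    · rw [h1]; simp [hq]
    · rw [Function.update_of_ne h1]
      by_cases h2 : (i, t) = p
      · rw [h2]; simp [hp]
      · rw [Function.update_of_ne h2]
  | false =>
    have hcol : p.2 = q.2 := by
      unfold Slide at hs
      simpa using hs.1
    by_cases ht : t = p.2
    · have key : ∀ i, vv (Function.update (Function.update c p none) q (some false)) (i, t)
          = vv c (Equiv.swap p.1 q.1 i, t) := by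
        intro i
        unfold vv
        by_cases h1 : i = q.1
        · subst h1
          rw [Equiv.swap_apply_right, show (q.1, t) = q by rw [ht, hcol],
            show (p.1, t) = p by rw [ht]]
          simp [hp]
        · by_cases h2 : i = p.1
          · subst h2
            rw [Equiv.swap_apply_left, show (q.1, t) = q by rw [ht, hcol],
              show (p.1, t) = p by rw [ht], Function.update_of_ne hne]
            simp [hq]
          · rw [Equiv.swap_apply_of_ne_of_ne h2 h1, Function.update_of_ne, Function.update_of_ne]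
            · intro h; exact h2 (by rw [← h])
            · intro h; exact h1 (by rw [← h])
      rw [Finset.sum_congr rfl fun i _ => key i]
      exact Equiv.sum_comp (Equiv.swap p.1 q.1) (fun i => vv c (i, t))
    · refine Finset.sum_congr rfl fun i _ => ?_
      unfold vv
      rw [Function.update_of_ne, Function.update_of_ne]
      · intro h; exact ht (by rw [← h])
      · intro h; exact ht (by rw [hcol, ← h])

theorem gcol_step {c c' : Config m n} (h : Step c c') (j : Fin n) : gcol c' j = gcol c j := by
  unfold gcol
  refine Finset.sum_congr rfl fun t _ => ?_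
  rw [vcol_step h]

/-- Vertical moves. -/
theorem J_vertical {c : Config m n} {p q : Fin m × Fin n} (hs : Slide false p q)
    (hp : c p = some false) (hq : c q = none) :
    J (Function.update (Function.update c p none) q (some false)) p = J c q := by
  have hne := hs.ne
  have hst : Step c (Function.update (Function.update c p none) q (some false)) :=
    ⟨false, p, q, hs, hp, hq, rfl⟩
  have hh' : hh (Function.update (Function.update c p none) q (some false)) = hh c := by
    funext z
    unfold hh
    by_cases h1 : z = q
    · rw [h1]; simp [hq]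
    · rw [Function.update_of_ne h1]
      by_cases h2 : z = p
      · rw [h2]; simp [hp]
      · rw [Function.update_of_ne h2]
  unfold J
  rw [gcol_step hst, hh']
  have hcol : p.2 = q.2 ∧ ((p.1 : ℕ) + 1 = q.1 ∨ (q.1 : ℕ) + 1 = p.1) := by
    unfold Slide at hs
    simpa using hs
  rw [hcol.1]
  congr 2
  unfold below
  rw [hh']
  refine Finset.sum_congr rfl fun y _ => ?_
  by_cases h1 : y = p
  · subst h1; simp [hh, hp]
  · by_cases h2 : y = q
    · subst h2; simp [hh, hq]
    · rw [hcol.1]
      by_cases h3 : y.2 = q.2
      · have h4 : (y.1 : ℕ) ≠ p.1 := fun h => h1 (Prod.ext (Fin.ext h) (h3.trans hcol.1.symm))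
        have h5 : (y.1 : ℕ) ≠ q.1 := fun h => h2 (Prod.ext (Fin.ext h) h3)
        have : (p.1 < y.1) ↔ (q.1 < y.1) := by
          rw [Fin.lt_def, Fin.lt_def]
          omega
        simp [h3, this]
      · simp [h3]

/-- Horizontal moves to the left. -/
theorem J_left {c : Config m n} {p q : Fin m × Fin n} (hrow : p.1 = q.1)
    (hcol : (q.2 : ℕ) + 1 = p.2) (hp : c p = some true) (hq : c q = none) (hx : Hole c q) :
    J (Function.update (Function.update c p none) q (some true)) p = J c q := by
  have hs : Slide true p q := by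
    simp only [Slide, if_true]
    exact ⟨hrow, Or.inr hcol⟩
  have hne := hs.ne
  have hst : Step c (Function.update (Function.update c p none) q (some true)) :=
    ⟨true, p, q, hs, hp, hq, rfl⟩
  set c' := Function.update (Function.update c p none) q (some true) with hc'
  have two : (1 : ZMod 2) + 1 = 0 := by decide
  have add_self : ∀ a : ZMod 2, a + a = 0 := by decide
  have hh' : hh c' = hh c + (Pi.single p 1 + Pi.single q 1) := by
    funext z
    simp only [Pi.add_apply]
    by_cases h1 : z = q
    · subst h1
      simp [hh, hc', hq, Pi.single_eq_of_ne hne.symm]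
    · by_cases h2 : z = p
      · subst h2
        simp [hh, hc', Function.update_of_ne h1, hp, Pi.single_eq_of_ne h1, two]
      · simp [hh, hc', Function.update_of_ne h1, Function.update_of_ne h2,
          Pi.single_eq_of_ne h1, Pi.single_eq_of_ne h2]
  -- the form
  have e1 : B (Pi.single p 1) (hh c) + B (Pi.single q 1) (hh c) = below c q := by
    rw [B_single_left, B_single_left, ← Finset.sum_add_distrib]
    unfold below
    refine Finset.sum_congr rfl fun y _ => ?_
    have s1 : SW p y ↔ (q.1 < y.1 ∧ y.2 < p.2) := by unfold SW; rw [hrow]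
    have s2 : SW q y ↔ (q.1 < y.1 ∧ y.2 < q.2) := Iff.rfl
    simp only [s1, s2]
    by_cases h1 : q.1 < y.1
    · by_cases h2 : y.2 = q.2
      · have a1 : y.2 < p.2 := by rw [Fin.lt_def, h2]; omega
        have a2 : ¬ y.2 < q.2 := by rw [h2]; exact lt_irrefl _
        rw [if_pos ⟨h1, a1⟩, if_neg (fun h => a2 h.2), if_pos ⟨h2, h1⟩, add_zero]
      · have h2' : (y.2 : ℕ) ≠ q.2 := fun h => h2 (Fin.ext h)
        by_cases h3 : y.2 < q.2
        · have a1 : y.2 < p.2 := by rw [Fin.lt_def] at h3 ⊢; omega
          simp [h1, a1, h3, h2, add_self]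
        · have a1 : ¬ y.2 < p.2 := by rw [Fin.lt_def] at h3 ⊢; omega
          simp [h1, a1, h3, h2]
    · simp [h1]
  have e2 : B (hh c) (Pi.single p 1) + B (hh c) (Pi.single q 1)
      = ∑ y, if y.2 = p.2 ∧ y.1 < p.1 then hh c y else 0 := by
    rw [B_single_right, B_single_right, ← Finset.sum_add_distrib]
    refine Finset.sum_congr rfl fun y _ => ?_
    have s1 : SW y p ↔ (y.1 < q.1 ∧ p.2 < y.2) := by unfold SW; rw [hrow]
    have s2 : SW y q ↔ (y.1 < q.1 ∧ q.2 < y.2) := Iff.rfl
    simp only [s1, s2, hrow]
    by_cases h1 : y.1 < q.1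
    · by_cases h2 : y.2 = p.2
      · have a1 : ¬ p.2 < y.2 := by rw [h2]; exact lt_irrefl _
        have a2 : q.2 < y.2 := by rw [Fin.lt_def, h2]; omega
        rw [if_neg (fun h => a1 h.2), if_pos ⟨h1, a2⟩, if_pos ⟨h2, h1⟩, zero_add]
      · have h2' : (y.2 : ℕ) ≠ p.2 := fun h => h2 (Fin.ext h)
        by_cases h3 : p.2 < y.2
        · have a1 : q.2 < y.2 := by rw [Fin.lt_def] at h3 ⊢; omega
          simp [h1, a1, h3, h2, add_self]
        · have a1 : ¬ q.2 < y.2 := by rw [Fin.lt_def] at h3 ⊢; omega
          simp [h1, a1, h3, h2]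
    · simp [h1]
  have e3 : ∀ s t : Fin m × Fin n, s.1 = t.1 → B (Pi.single s 1) (Pi.single t 1) = 0 := by
    intro s t hst'
    rw [B_single_left]
    refine Finset.sum_eq_zero fun y _ => ?_
    by_cases hy : y = t
    · subst hy
      have : ¬ SW s y := fun h => by
        have := h.1
        rw [hst'] at this
        exact lt_irrefl _ this
      simp [this]
    · rw [Pi.single_eq_of_ne hy]; simp
  have hB : B (hh c') (hh c') = B (hh c) (hh c) + below c q
      + ∑ y, if y.2 = p.2 ∧ y.1 < p.1 then hh c y else 0 := by
    rw [hh', ← e1]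
    have e2' := e2
    simp only [B_add_left, B_add_right, e3 p p rfl, e3 p q hrow, e3 q p hrow.symm, e3 q q rfl]
    rw [← e2]
    ring
  -- below
  have hbelow : below c' p = ∑ y, if y.2 = p.2 ∧ p.1 < y.1 then hh c y else 0 := by
    unfold below
    refine Finset.sum_congr rfl fun y _ => ?_
    by_cases h : y.2 = p.2 ∧ p.1 < y.1
    · rw [if_pos h, if_pos h, hh']
      have h1 : y ≠ p := fun e => by rw [e] at h; exact lt_irrefl _ h.2
      have h2 : y ≠ q := fun e => by rw [e, ← hrow] at h; exact lt_irrefl _ h.2
      simp [Pi.single_eq_of_ne h1, Pi.single_eq_of_ne h2]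
    · rw [if_neg h, if_neg h]
  -- column count
  have hcount : (∑ y, if y.2 = p.2 ∧ y.1 < p.1 then hh c y else 0)
      + (∑ y, if y.2 = p.2 ∧ p.1 < y.1 then hh c y else 0) = (m : ZMod 2) - 1 - vcol c p.2 := by
    have f1 : (∑ y : Fin m × Fin n, if y.2 = p.2 ∧ y.1 < p.1 then hh c y else 0)
        + (∑ y, if y.2 = p.2 ∧ p.1 < y.1 then hh c y else 0) + hh c p
        = ∑ y : Fin m × Fin n, if y.2 = p.2 then hh c y else 0 := by
      have f2 : hh c p = ∑ y : Fin m × Fin n, if y = p then hh c y else 0 := by
        rw [Finset.sum_ite_eq' Finset.univ p]; simp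
      rw [f2, ← Finset.sum_add_distrib, ← Finset.sum_add_distrib]
      refine Finset.sum_congr rfl fun y _ => ?_
      by_cases h2 : y.2 = p.2
      · rcases lt_trichotomy y.1 p.1 with h | h | h
        · have h3 : y ≠ p := fun e => by rw [e] at h; exact lt_irrefl _ h
          simp [h2, h, h3, h.not_gt]
        · have h3 : y = p := Prod.ext h h2
          simp [h3]
        · have h3 : y ≠ p := fun e => by rw [e] at h; exact lt_irrefl _ h
          simp [h2, h, h3, h.not_gt]
      · have h3 : y ≠ p := fun e => h2 (by rw [e])
        simp [h2, h3]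
    have f3 : (∑ y : Fin m × Fin n, if y.2 = p.2 then hh c y else 0) = ∑ i, hh c (i, p.2) := by
      rw [Fintype.sum_prod_type]
      refine Finset.sum_congr rfl fun i _ => ?_
      rw [Finset.sum_ite_eq' Finset.univ p.2]
      simp
    have f4 : (∑ i, hh c (i, p.2)) + vcol c p.2 = (m : ZMod 2) := by
      unfold vcol
      rw [← Finset.sum_add_distrib]
      have : ∀ i : Fin m, hh c (i, p.2) + vv c (i, p.2) = 1 := by
        intro i
        have hne' : c (i, p.2) ≠ none := by
          rw [Ne, hx (i, p.2)]
          intro h
          have := congrArg Prod.snd h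
          simp only at this
          rw [this] at hcol
          omega
        unfold hh vv
        rcases hcc : c (i, p.2) with _ | b
        · exact absurd hcc hne'
        · cases b <;> simp
      rw [Finset.sum_congr rfl fun i _ => this i]
      simp
    have hhp : hh c p = 1 := by simp [hh, hp]
    rw [hhp] at f1
    rw [eq_sub_iff_add_eq, eq_sub_iff_add_eq, ← f4, ← f3, ← f1]
    ring
  -- potential
  have hg : gcol c' p.2 = gcol c q.2 + ((m : ZMod 2) - 1 - vcol c p.2) := by
    rw [gcol_step hst]
    unfold gcol
    have f5 : ((m : ZMod 2) - 1 - vcol c p.2)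
        = ∑ t, if t = p.2 then ((m : ZMod 2) - 1 - vcol c t) else 0 := by
      rw [Finset.sum_ite_eq' Finset.univ p.2]; simp
    rw [f5, ← Finset.sum_add_distrib]
    refine Finset.sum_congr rfl fun t _ => ?_
    by_cases h1 : t = p.2
    · have a1 : ¬ t ≤ q.2 := by rw [h1, Fin.le_def]; omega
      have a2 : t ≤ p.2 := h1.le
      rw [if_pos a2, if_neg a1, if_pos h1, zero_add]
    · have h1' : (t : ℕ) ≠ p.2 := fun h => h1 (Fin.ext h)
      by_cases h2 : t ≤ q.2
      · have a1 : t ≤ p.2 := by rw [Fin.le_def] at h2 ⊢; omega
        simp [h1, h2, a1]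
      · have a1 : ¬ t ≤ p.2 := by rw [Fin.le_def] at h2 ⊢; omega
        simp [h1, h2, a1]
  unfold J
  rw [hB, hbelow, hg, ← hcount]
  have hring : ∀ a b x y g : ZMod 2, a + b + x + y + (g + (x + y)) = a + b + g := by decide
  exact hring _ _ _ _ _

theorem J_step {c c' : Config m n} {x x' : Fin m × Fin n} (hx : Hole c x) (hx' : Hole c' x')
    (h : Step c c') : J c' x' = J c x := by
  have h' := h.symm
  obtain ⟨b, p, q, hs, hp, hq, hc'⟩ := h
  have hxq : x = q := ((hx q).1 hq).symm
  have hxp : x' = p := by
    refine ((hx' p).1 ?_).symm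
    rw [hc', Function.update_of_ne hs.ne]; simp
  subst hxq
  subst hxp
  cases b with
  | false => rw [hc']; exact J_vertical hs hp hq
  | true =>
    have hs2 : x'.1 = x.1 ∧ ((x'.2 : ℕ) + 1 = x.2 ∨ (x.2 : ℕ) + 1 = x'.2) := by
      unfold Slide at hs
      simpa using hs
    rcases hs2.2 with h2 | h2
    · -- the reversed move goes to the left
      have hpx : c' x = some true := by rw [hc']; simp
      have hqx : c' x' = none := (hx' x').2 rfl
      have hback : c = Function.update (Function.update c' x none) x' (some true) := by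
        funext z
        by_cases h1 : z = x'
        · rw [h1]; simp [hp]
        · rw [Function.update_of_ne h1]
          by_cases h3 : z = x
          · rw [h3]; simp [hq]
          · rw [Function.update_of_ne h3, hc', Function.update_of_ne h3, Function.update_of_ne h1]
      have := J_left (c := c') (p := x) (q := x') hs2.1.symm h2 hpx hqx hx'
      rw [← hback] at this
      exact this.symm
    · rw [hc']
      exact J_left hs2.1 h2 hp hq hx

theorem J_reach {c c' : Config m n} (h : Reach c c') : ∀ {x : Fin m × Fin n}, Hole c x →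
    ∃ x', Hole c' x' ∧ J c' x' = J c x := by
  induction h with
  | refl => exact fun hx => ⟨_, hx, rfl⟩
  | tail _ hs ih =>
    intro x hx
    obtain ⟨y, hy, e⟩ := ih hx
    obtain ⟨z, hz⟩ := hole_step hy hs
    exact ⟨z, hz, (J_step hy hz hs).trans e⟩

theorem vcol_reach {c c' : Config m n} (h : Reach c c') (t : Fin n) : vcol c' t = vcol c t := by
  induction h with
  | refl => rfl
  | tail _ hs ih => rw [vcol_step hs, ih]

theorem gcol_reach {c c' : Config m n} (h : Reach c c') (t : Fin n) : gcol c' t = gcol c t := by
  unfold gcol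
  refine Finset.sum_congr rfl fun t _ => ?_
  rw [vcol_reach h]

end Pool.Agent.H86.RH
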